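import Mathlib

/-!
# Symmetric identities of bounded arity do not suffice

Let `V` be the variety of lattices defined by the single ternary identity
`x ∧ m ≈ (x ∧ y) ∨ (x ∧ z)` with `m = (x ∧ y) ∨ (x ∧ z) ∨ (y ∧ z)`.  Let `G` be the nine-element
lattice obtained from the Boolean lattice with three atoms by doubling one coatom.  Then `G` is
not in `V`, but `G` satisfies all symmetric identities of arity at most three that hold in `V`.
Indeed, every triple of elements of `G`, apart from the triple `c` of the three coatoms, lies in a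
proper sublattice, and the proper sublattices are in `V`; and the values of symmetric terms at
`c` are `0` or `1`, as one sees in the Boolean quotient.
-/

namespace Pool.Agent.Results.MP_78b302_al.BoundedArity

universe u

/-- Lattice terms in the variables `x_1, …, x_n`. -/
inductive LTerm (n : ℕ) : Type
  | var : Fin n → LTerm n
  | sup : LTerm n → LTerm n → LTerm n
  | inf : LTerm n → LTerm n → LTerm n

namespace LTerm

variable {n m : ℕ}

/-- The value of a lattice term under an assignment. -/
def eval {L : Type u} [Lattice L] (v : Fin n → L) : LTerm n → L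
  | var i => v i
  | sup s t => s.eval v ⊔ t.eval v
  | inf s t => s.eval v ⊓ t.eval v

/-- The term obtained by replacing each variable `x_i` by `x_{g i}`. -/
def rename (g : Fin n → Fin m) : LTerm n → LTerm m
  | var i => var (g i)
  | sup s t => sup (s.rename g) (t.rename g)
  | inf s t => inf (s.rename g) (t.rename g)

end LTerm

/-- The `n`-ary identity `s ≈ t` holds in the lattice `L`. -/
def HoldsIn (L : Type u) [Lattice L] {n : ℕ} (s t : LTerm n) : Prop :=
  ∀ v : Fin n → L, s.eval v = t.eval v

/-- `L` belongs to the lattice variety axiomatized by the identities of arity at most `k` in `E`;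
here `E n` is a set of identities of arity `n`. -/
def InVariety (k : ℕ) (E : ∀ n : ℕ, Set (LTerm n × LTerm n)) (L : Type u) [Lattice L] : Prop :=
  ∀ n ≤ k, ∀ e ∈ E n, HoldsIn L e.1 e.2

/-- The `n`-ary terms `s` and `t` represent the same element of the free lattice `FL(n)`: the
identity `s ≈ t` holds in all lattices. -/
def EqInFree {n : ℕ} (s t : LTerm n) : Prop :=
  ∀ (M : Type u) [Lattice M], HoldsIn M s t

/-- The `n`-ary term `t` is symmetric: `t = t_σ` in the free lattice `FL(n)` for all `σ ∈ S_n`. -/
def IsSymmetric {n : ℕ} (t : LTerm n) : Prop :=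
  ∀ σ : Equiv.Perm (Fin n), EqInFree.{u} t (t.rename σ)

/-- `L` belongs to `V_k^sym`, where `V` is the variety axiomatized by the identities of arity at
most `k` in `E`: `L` satisfies every symmetric identity of arity at most `k` that holds in `V`. -/
def InSymmetricPart (k : ℕ) (E : ∀ n : ℕ, Set (LTerm n × LTerm n)) (L : Type u) [Lattice L] :
    Prop :=
  ∀ n ≤ k, ∀ t s : LTerm n, IsSymmetric.{u} t → IsSymmetric.{u} s →
    (∀ (M : Type u) [Lattice M], InVariety k E M → HoldsIn M t s) → HoldsIn L t s

/-! ### Auxiliary lemmas on terms -/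

namespace LTerm

variable {n m : ℕ}

theorem eval_rename {L : Type u} [Lattice L] (g : Fin n → Fin m) (v : Fin m → L) (t : LTerm n) :
    (t.rename g).eval v = t.eval (fun i => v (g i)) := by
  induction t with
  | var i => rfl
  | sup s t hs ht => simp only [rename, eval, hs, ht]
  | inf s t hs ht => simp only [rename, eval, hs, ht]

theorem eval_hom {L M : Type u} [Lattice L] [Lattice M] (f : L → M)
    (hs : ∀ x y, f (x ⊔ y) = f x ⊔ f y) (hi : ∀ x y, f (x ⊓ y) = f x ⊓ f y)
    (v : Fin n → L) (t : LTerm n) : f (t.eval v) = t.eval (fun i => f (v i)) := by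
  induction t with
  | var i => rfl
  | sup s t h1 h2 => simp only [eval, hs, h1, h2]
  | inf s t h1 h2 => simp only [eval, hi, h1, h2]

end LTerm

open LTerm

/-! ### The lattice `G` -/

/-- The order of `G`: `0 < 6, 7, 8`, `6 < 3, 5`, `7 < 2, 5`, `8 < 2, 3`, `5 < 4`, `2, 3, 4 < 1`. -/
def leG (a b : Fin 9) : Bool :=
  a == b || a == 0 || b == 1 ||
    (a == 6 && (b == 3 || b == 5 || b == 4)) ||
    (a == 7 && (b == 2 || b == 5 || b == 4)) ||
    (a == 8 && (b == 2 || b == 3)) ||
    (a == 5 && b == 4)

/-- The join of `G`. -/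
def supG (a b : Fin 9) : Fin 9 :=
  if leG a b then b else if leG b a then a else
    if leG a 5 && leG b 5 then 5 else
    if leG a 4 && leG b 4 then 4 else
    if leG a 3 && leG b 3 then 3 else
    if leG a 2 && leG b 2 then 2 else 1

/-- The meet of `G`. -/
def infG (a b : Fin 9) : Fin 9 :=
  if leG a b then a else if leG b a then b else
    if leG 5 a && leG 5 b then 5 else
    if leG 6 a && leG 6 b then 6 else
    if leG 7 a && leG 7 b then 7 else
    if leG 8 a && leG 8 b then 8 else 0

/-- The nine-element lattice `G`. -/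
structure G : Type where
  /-- the underlying number -/
  val : Fin 9

theorem G.ext' {a b : G} (h : a.val = b.val) : a = b := by
  cases a; cases b; cases h; rfl

instance : Lattice G where
  le a b := leG a.val b.val = true
  le_refl a := by
    have : ∀ a : Fin 9, leG a a = true := by decide +kernel
    exact this _
  le_trans a b c h1 h2 := by
    have : ∀ a b c : Fin 9, leG a b = true → leG b c = true → leG a c = true := by
      decide +kernel
    exact this _ _ _ h1 h2
  le_antisymm a b h1 h2 := by
    have : ∀ a b : Fin 9, leG a b = true → leG b a = true → a = b := by decide +kernel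
    exact G.ext' (this _ _ h1 h2)
  sup a b := ⟨supG a.val b.val⟩
  inf a b := ⟨infG a.val b.val⟩
  le_sup_left a b := by
    have : ∀ a b : Fin 9, leG a (supG a b) = true := by decide +kernel
    exact this _ _
  le_sup_right a b := by
    have : ∀ a b : Fin 9, leG b (supG a b) = true := by decide +kernel
    exact this _ _
  sup_le a b c h1 h2 := by
    have : ∀ a b c : Fin 9, leG a c = true → leG b c = true → leG (supG a b) c = true := by
      decide +kernel
    exact this _ _ _ h1 h2
  inf_le_left a b := by
    have : ∀ a b : Fin 9, leG (infG a b) a = true := by decide +kernel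
    exact this _ _
  inf_le_right a b := by
    have : ∀ a b : Fin 9, leG (infG a b) b = true := by decide +kernel
    exact this _ _
  le_inf a b c h1 h2 := by
    have : ∀ a b c : Fin 9, leG a b = true → leG a c = true → leG a (infG b c) = true := by
      decide +kernel
    exact this _ _ _ h1 h2

theorem sup_val (a b : G) : (a ⊔ b).val = supG a.val b.val := rfl

theorem inf_val (a b : G) : (a ⊓ b).val = infG a.val b.val := rfl

/-- The left-hand side `x ∧ m` of the identity. -/
def lhs : LTerm 3 :=
  inf (var 0) (sup (sup (inf (var 0) (var 1)) (inf (var 0) (var 2))) (inf (var 1) (var 2)))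

/-- The right-hand side `(x ∧ y) ∨ (x ∧ z)` of the identity. -/
def rhs : LTerm 3 :=
  sup (inf (var 0) (var 1)) (inf (var 0) (var 2))

/-- The axioms: only the identity `lhs ≈ rhs` of arity three. -/
def Ax (n : ℕ) : Set (LTerm n × LTerm n) :=
  {e | ∃ h : n = 3, h ▸ e = (lhs, rhs)}

theorem inVariety_iff (L : Type u) [Lattice L] :
    InVariety 3 Ax L ↔ ∀ x y z : L,
      x ⊓ (((x ⊓ y) ⊔ (x ⊓ z)) ⊔ (y ⊓ z)) = (x ⊓ y) ⊔ (x ⊓ z) := by
  constructor
  · intro h x y z
    exact h 3 le_rfl (lhs, rhs) ⟨rfl, rfl⟩ ![x, y, z]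
  · intro h n _ e he v
    obtain ⟨rfl, he⟩ := he
    have he' : e = (lhs, rhs) := he
    subst he'
    exact h (v 0) (v 1) (v 2)

/-- the candidate sublattices, given by their complements `{p, q}` -/
def avoid (p q a : Fin 9) : Bool := a != p && a != q

/-- the list of the five maximal proper sublattices -/
def pairs : List (Fin 9 × Fin 9) := [(4, 4), (3, 6), (3, 8), (2, 7), (2, 8)]

/-- the sublattice of `G` avoiding `p` and `q` -/
def subG (pq : Fin 9 × Fin 9) (h : pq ∈ pairs) : Sublattice G where
  carrier := {a | avoid pq.1 pq.2 a.val = true}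
  supClosed' := by
    intro a ha b hb
    have : ∀ pq ∈ pairs, ∀ a b : Fin 9, avoid pq.1 pq.2 a = true → avoid pq.1 pq.2 b = true →
        avoid pq.1 pq.2 (supG a b) = true := by decide +kernel
    exact this pq h _ _ ha hb
  infClosed' := by
    intro a ha b hb
    have : ∀ pq ∈ pairs, ∀ a b : Fin 9, avoid pq.1 pq.2 a = true → avoid pq.1 pq.2 b = true →
        avoid pq.1 pq.2 (infG a b) = true := by decide +kernel
    exact this pq h _ _ ha hb

theorem subG_inVariety (pq : Fin 9 × Fin 9) (h : pq ∈ pairs) : InVariety 3 Ax (subG pq h) := by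
  rw [inVariety_iff]
  intro x y z
  have key : ∀ pq ∈ pairs, ∀ x y z : Fin 9, avoid pq.1 pq.2 x = true → avoid pq.1 pq.2 y = true →
      avoid pq.1 pq.2 z = true →
      infG x (supG (supG (infG x y) (infG x z)) (infG y z)) = supG (infG x y) (infG x z) := by
    decide +kernel
  apply Subtype.ext
  apply G.ext'
  exact key pq h _ _ _ x.2 y.2 z.2

/-- identities valid in `V` hold for assignments in a proper sublattice -/
theorem eval_eq_of_avoid {n : ℕ} {t s : LTerm n}
    (hV : ∀ (M : Type) [Lattice M], InVariety 3 Ax M → HoldsIn M t s) (pq : Fin 9 × Fin 9)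
    (h : pq ∈ pairs) (v : Fin n → G) (hv : ∀ i, avoid pq.1 pq.2 (v i).val = true) :
    t.eval v = s.eval v := by
  have h1 := hV (subG pq h) (subG_inVariety pq h) (fun i => ⟨v i, hv i⟩)
  have e : ∀ r : LTerm n, ((r.eval (fun i => (⟨v i, hv i⟩ : subG pq h)) : subG pq h) : G) =
      r.eval v := fun r =>
    eval_hom (fun a : subG pq h => (a : G)) (fun _ _ => rfl) (fun _ _ => rfl) _ r
  rw [← e t, ← e s, h1]

/-- the endomorphism of `G` that maps `4` to `5` -/
def piF : Fin 9 → Fin 9 := ![0, 1, 2, 3, 5, 5, 6, 7, 8]

/-- the endomorphism `piF` followed by the exchange of the atoms `7` and `8` -/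
def beF : Fin 9 → Fin 9 := ![0, 1, 2, 5, 3, 3, 6, 8, 7]

/-- the endomorphism `piF` followed by the exchange of the atoms `6` and `8` -/
def gaF : Fin 9 → Fin 9 := ![0, 1, 5, 3, 2, 2, 8, 7, 6]

/-- the exceptional triple -/
def c : Fin 3 → G := ![⟨4⟩, ⟨3⟩, ⟨2⟩]

theorem eval_end (f : Fin 9 → Fin 9) (hs : ∀ x y, f (supG x y) = supG (f x) (f y))
    (hi : ∀ x y, f (infG x y) = infG (f x) (f y)) (t : LTerm 3) (v : Fin 3 → G) :
    f (t.eval v).val = (t.eval (fun i => (⟨f (v i).val⟩ : G))).val := by
  have := eval_hom (fun a : G => (⟨f a.val⟩ : G)) (fun x y => G.ext' (hs x.val y.val))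
    (fun x y => G.ext' (hi x.val y.val)) v t
  exact congrArg G.val this

theorem symm_eval {L : Type u} [Lattice L] {n : ℕ} {t : LTerm n} (ht : IsSymmetric.{u} t)
    (σ : Equiv.Perm (Fin n)) (v : Fin n → L) : t.eval (fun i => v (σ i)) = t.eval v := by
  rw [ht σ L v, eval_rename]

/-- symmetric terms take the values `0` or `1` at the exceptional triple -/
theorem eval_c {t : LTerm 3} (ht : IsSymmetric.{0} t) :
    (t.eval c).val = 0 ∨ (t.eval c).val = 1 := by
  have h1 : piF (t.eval c).val = beF (t.eval c).val := by
    rw [eval_end piF (by decide +kernel) (by decide +kernel),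
      eval_end beF (by decide +kernel) (by decide +kernel),
      ← symm_eval ht (Equiv.swap 0 1) (fun i => (⟨beF (c i).val⟩ : G))]
    have : (fun i => (⟨piF (c i).val⟩ : G)) =
        fun i => (⟨beF (c (Equiv.swap 0 1 i)).val⟩ : G) := by
      funext i
      apply G.ext'
      revert i
      decide +kernel
    rw [this]
  have h2 : piF (t.eval c).val = gaF (t.eval c).val := by
    rw [eval_end piF (by decide +kernel) (by decide +kernel),
      eval_end gaF (by decide +kernel) (by decide +kernel),
      ← symm_eval ht (Equiv.swap 0 2) (fun i => (⟨gaF (c i).val⟩ : G))]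
    have : (fun i => (⟨piF (c i).val⟩ : G)) =
        fun i => (⟨gaF (c (Equiv.swap 0 2 i)).val⟩ : G) := by
      funext i
      apply G.ext'
      revert i
      decide +kernel
    rw [this]
  have key : ∀ x : Fin 9, piF x = beF x → piF x = gaF x → x = 0 ∨ x = 1 := by decide +kernel
  exact key _ h1 h2

theorem eval_eq_c {t s : LTerm 3}
    (hV : ∀ (M : Type) [Lattice M], InVariety 3 Ax M → HoldsIn M t s)
    (ht : IsSymmetric.{0} t) (hs : IsSymmetric.{0} s) : t.eval c = s.eval c := by
  have h1 : piF (t.eval c).val = piF (s.eval c).val := by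
    rw [eval_end piF (by decide +kernel) (by decide +kernel),
      eval_end piF (by decide +kernel) (by decide +kernel)]
    rw [eval_eq_of_avoid hV (4, 4) (by decide) (fun i => (⟨piF (c i).val⟩ : G)) (by
      decide +kernel)]
  have key : ∀ x y : Fin 9, (x = 0 ∨ x = 1) → (y = 0 ∨ y = 1) → piF x = piF y → x = y := by
    decide +kernel
  exact G.ext' (key _ _ (eval_c ht) (eval_c hs) h1)

/-- triples of elements -/
theorem triples : ∀ x y z : Fin 9, (∃ pq ∈ pairs, avoid pq.1 pq.2 x = true ∧
    avoid pq.1 pq.2 y = true ∧ avoid pq.1 pq.2 z = true) ∨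
    ∃ σ : Equiv.Perm (Fin 3), ![x, y, z] = fun i => (c (σ i)).val := by
  have h : ∀ x y z : Fin 9, (∃ pq ∈ pairs, avoid pq.1 pq.2 x = true ∧
    avoid pq.1 pq.2 y = true ∧ avoid pq.1 pq.2 z = true) ∨
    (x, y, z) ∈ [((4, 3, 2) : Fin 9 × Fin 9 × Fin 9), (4, 2, 3), (3, 4, 2), (3, 2, 4), (2, 3, 4),
      (2, 4, 3)] := by decide +kernel
  intro x y z
  rcases h x y z with h | h
  · exact Or.inl h
  · right
    simp only [List.mem_cons, List.not_mem_nil, or_false, Prod.mk.injEq] at h
    rcases h with ⟨rfl, rfl, rfl⟩ | ⟨rfl, rfl, rfl⟩ | ⟨rfl, rfl, rfl⟩ | ⟨rfl, rfl, rfl⟩ |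
      ⟨rfl, rfl, rfl⟩ | ⟨rfl, rfl, rfl⟩
    · decide +kernel
    · decide +kernel
    · decide +kernel
    · decide +kernel
    · decide +kernel
    · decide +kernel

theorem G_inSymmetricPart : InSymmetricPart 3 Ax G := by
  intro n hn t s ht hs hV v
  have hn' : n = 0 ∨ n = 1 ∨ n = 2 ∨ n = 3 := by omega
  rcases hn' with rfl | rfl | rfl | rfl
  · exact eval_eq_of_avoid hV (4, 4) (by decide) v (fun i => i.elim0)
  · have key : ∀ x : Fin 9, ∃ pq ∈ pairs, avoid pq.1 pq.2 x = true := by decide +kernel
    obtain ⟨pq, h, hx⟩ := key (v 0).val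
    apply eval_eq_of_avoid hV pq h v
    intro i
    rw [Subsingleton.elim i 0]
    exact hx
  · have key : ∀ x y : Fin 9, ∃ pq ∈ pairs, avoid pq.1 pq.2 x = true ∧
        avoid pq.1 pq.2 y = true := by decide +kernel
    obtain ⟨pq, h, hx, hy⟩ := key (v 0).val (v 1).val
    apply eval_eq_of_avoid hV pq h v
    intro i
    match i with
    | 0 => exact hx
    | 1 => exact hy
  · rcases triples (v 0).val (v 1).val (v 2).val with ⟨pq, h, hx, hy, hz⟩ | ⟨σ, hσ⟩
    · apply eval_eq_of_avoid hV pq h v
      intro i
      match i with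
      | 0 => exact hx
      | 1 => exact hy
      | 2 => exact hz
    · have hv : v = fun i => c (σ i) := by
        funext i
        apply G.ext'
        have := congrFun hσ i
        rw [← this]
        match i with
        | 0 => rfl
        | 1 => rfl
        | 2 => rfl
      rw [hv, symm_eval ht σ c, symm_eval hs σ c]
      exact eval_eq_c hV ht hs

/-- **Theorem.**  The question has a negative answer (with `k = 3`): there are a lattice variety
axiomatized by identities of arity at most `k` and a lattice that is not in the variety but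
satisfies every symmetric identity of arity at most `k` that holds in the variety. -/
theorem result : ∃ (k : ℕ) (E : ∀ n : ℕ, Set (LTerm n × LTerm n)) (L : Type) (_ : Lattice L),
    InSymmetricPart k E L ∧ ¬ InVariety k E L := by
  refine ⟨3, Ax, G, inferInstance, G_inSymmetricPart, ?_⟩
  intro h
  rw [inVariety_iff] at h
  have h1 := congrArg G.val (h ⟨4⟩ ⟨3⟩ ⟨2⟩)
  simp only [sup_val, inf_val] at h1
  revert h1
  decide +kernel

end Pool.Agent.Results.MP_78b302_al.BoundedArity
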